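import Mathlib
import Pool.Agent.Helper45.RigidProof

/-!
# Rigid maximal diameter-`r` subsets of the hypercube with more than `2 ^ r` points

We disprove `b'(n;r) = 2 ^ r`.  An explicit rigid, maximally diameter-`5` subset of `Q_7` with
`37 > 2 ^ 5` points is checked by the kernel, and products with copies of itself and with
subcubes give, for all `k s n` with `7 k + s ≤ n`, a rigid, maximally diameter-`(5 k + s)` subset
of `Q_n` with exactly `37 ^ k * 2 ^ s` points.
-/

set_option autoImplicit false

namespace Pool.Agent.Results.MP_b9e9b1_co.RigidDiameter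

/-- The diameter of a finite subset `A` of the cube `{±1}^ι`, for the Hamming distance
(`0` for the empty set). -/
def diam {ι : Type} [Fintype ι] (A : Finset (ι → ℤˣ)) : ℕ :=
  A.sup fun x => A.sup fun y => hammingDist x y

/-- `A` is maximally diameter-`r`: `diam A = r`, and `diam (A ∪ {x}) > r` for every point `x`
of the cube outside `A`. -/
def IsMaximallyDiam {ι : Type} [Fintype ι] (r : ℕ) (A : Finset (ι → ℤˣ)) : Prop :=
  diam A = r ∧ ∀ x : ι → ℤˣ, x ∉ A → r < diam (insert x A)

/-- `A` is rigid: `max_{x ∈ A} d(x,a) = diam A` for every `a ∈ A`. -/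
def IsRigid {ι : Type} [Fintype ι] (A : Finset (ι → ℤˣ)) : Prop :=
  ∀ a ∈ A, (A.sup fun x => hammingDist x a) = diam A

/-- **Main theorem.**  For all `k s n` with `7 k + s ≤ n` the cube `Q_n = {±1}^n` contains a
rigid, maximally diameter-`(5 k + s)` set with `37 ^ k * 2 ^ s` points.  For `k = 1` this gives
`b'(n;r) > 2 ^ r` for all `r ≥ 5` and `n ≥ r + 2`. -/
theorem result (k s n : ℕ) (hn : 7 * k + s ≤ n) :
    ∃ A : Finset (Fin n → ℤˣ),
      IsMaximallyDiam (5 * k + s) A ∧ IsRigid A ∧ A.card = 37 ^ k * 2 ^ s :=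
  Helper45.RigidProof.main k s n hn

end Pool.Agent.Results.MP_b9e9b1_co.RigidDiameter
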